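import Pool.Agent.H30.Kerv.Local

/-!
# Products of conjugacy classes in abelian-by-finite groups: the closedness argument
-/

set_option autoImplicit false

namespace Pool.Agent.H30.Kerv

open Monoid
open scoped IsMulCommutative

universe u v

section Core

variable {Γ : Type u} [Group Γ] (A : Subgroup Γ) [A.Normal] [IsMulCommutative A]

/-- the action of `Γ ⧸ A` on the abelian normal subgroup `A` -/
noncomputable def act : Γ ⧸ A →* MulAut A :=
  QuotientGroup.lift A (MulAut.conjNormal (H := A)) (by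
    intro a ha
    ext b
    have : a * b * a⁻¹ = b := by
      have h := mul_comm' (⟨a, ha⟩ : A) b
      have h2 : a * (b : Γ) = b * a := congrArg Subtype.val h
      rw [h2]; group
    simpa using this)

lemma act_mk (x : Γ) (b : A) : ((act A (QuotientGroup.mk' A x) b : A) : Γ) = x * b * x⁻¹ := by
  simp [act]

/-- commutator with `ρ` -/
noncomputable def cm (ρ : Γ ⧸ A) : A →* A where
  toFun b := b * (act A ρ b)⁻¹
  map_one' := by simp
  map_mul' a b := by
    simp only [map_mul, mul_inv]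
    exact mul_mul_mul_comm _ _ _ _

lemma cm_apply (ρ : Γ ⧸ A) (b : A) : cm A ρ b = b * (act A ρ b)⁻¹ := rfl

/-- the subgroup of all `∏ a_i g_i a_i⁻¹ (∏ g_i)⁻¹` -/
noncomputable def Dsub : List Γ → Subgroup A
  | [] => ⊥
  | g :: L => (cm A (QuotientGroup.mk' A g)).range ⊔
      (Dsub L).map (act A (QuotientGroup.mk' A g)).toMonoidHom

/-- product of conjugates by elements of `A` -/
def cprod : List (Γ × A) → Γ
  | [] => 1
  | x :: L => (x.2 * x.1 * (x.2 : Γ)⁻¹) * cprod L

lemma cprod_mem (L : List (Γ × A)) :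
    ∃ d ∈ Dsub A (L.map Prod.fst), cprod A L = d * (L.map Prod.fst).prod := by
  induction L with
  | nil => exact ⟨1, by simp [Dsub], by simp [cprod]⟩
  | cons x L ih =>
    obtain ⟨d, hd, h⟩ := ih
    refine ⟨cm A (QuotientGroup.mk' A x.1) x.2 * act A (QuotientGroup.mk' A x.1) d, ?_, ?_⟩
    · simp only [List.map_cons, Dsub]
      apply Subgroup.mul_mem_sup
      · exact ⟨x.2, rfl⟩
      · exact ⟨d, hd, rfl⟩
    · simp only [List.map_cons, cprod, h, List.prod_cons, cm_apply, Subgroup.coe_mul,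
        Subgroup.coe_inv, act_mk]
      group

lemma mem_cprod (L : List Γ) (d : A) (hd : d ∈ Dsub A L) :
    ∃ L' : List (Γ × A), L'.map Prod.fst = L ∧ cprod A L' = d * L.prod := by
  induction L generalizing d with
  | nil =>
    simp only [Dsub, Subgroup.mem_bot] at hd
    exact ⟨[], rfl, by simp [cprod, hd]⟩
  | cons g L ih =>
    simp only [Dsub] at hd
    rw [Subgroup.mem_sup] at hd
    obtain ⟨y, ⟨a, ha⟩, z, ⟨d', hd', hz⟩, hyz⟩ := hd
    obtain ⟨L', hL', h⟩ := ih d' hd'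
    refine ⟨(g, a) :: L', by simp [hL'], ?_⟩
    have hz' : act A (QuotientGroup.mk' A g) d' = z := hz
    simp only [cprod, h, List.prod_cons]
    rw [← hyz, ← ha, ← hz', cm_apply]
    simp only [Subgroup.coe_mul, Subgroup.coe_inv, act_mk]
    group

/-- the elements acting trivially modulo `D` -/
noncomputable def stabMod (D : Subgroup A) : Subgroup (Γ ⧸ A) where
  carrier := {ρ | ∀ b, cm A ρ b ∈ D}
  one_mem' := by
    intro b
    simp [cm_apply, D.one_mem]
  mul_mem' := by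
    intro ρ σ hρ hσ b
    have : cm A (ρ * σ) b = cm A σ b * cm A ρ (act A σ b) := by
      simp only [cm_apply, map_mul, MulAut.mul_apply]
      group
    rw [this]
    exact D.mul_mem (hσ b) (hρ _)
  inv_mem' := by
    intro ρ hρ b
    have : cm A ρ⁻¹ b = (cm A ρ (act A ρ⁻¹ b))⁻¹ := by
      simp only [cm_apply]
      have : act A ρ (act A ρ⁻¹ b) = b := by
        rw [← MulAut.mul_apply, ← map_mul, mul_inv_cancel, map_one]; rfl
      rw [this]
      group
    rw [this]
    exact D.inv_mem (hρ _)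

lemma mem_stabMod (D : Subgroup A) (ρ : Γ ⧸ A) : ρ ∈ stabMod A D ↔ ∀ b, cm A ρ b ∈ D := Iff.rfl

lemma mem_stab_of_mem (L : List Γ) : ∀ g ∈ L, QuotientGroup.mk' A g ∈ stabMod A (Dsub A L) := by
  induction L with
  | nil => simp
  | cons g L ih =>
    have hg : QuotientGroup.mk' A g ∈ stabMod A (Dsub A (g :: L)) := by
      intro b
      simp only [Dsub]
      exact Subgroup.mem_sup_left ⟨b, rfl⟩
    intro g' hg'
    rcases List.mem_cons.1 hg' with rfl | hg'
    · exact hg
    · have h1 := ih g' hg'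
      have h2 : QuotientGroup.mk' A g * QuotientGroup.mk' A g' ∈
          stabMod A (Dsub A (g :: L)) := by
        intro b
        have : cm A (QuotientGroup.mk' A g * QuotientGroup.mk' A g') b =
            cm A (QuotientGroup.mk' A g) b *
              act A (QuotientGroup.mk' A g) (cm A (QuotientGroup.mk' A g') b) := by
          simp only [cm_apply, map_mul, MulAut.mul_apply, map_inv]
          group
        rw [this]
        simp only [Dsub]
        exact Subgroup.mul_mem_sup ⟨b, rfl⟩ ⟨_, h1 b, rfl⟩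
      have h3 := (stabMod A (Dsub A (g :: L))).mul_mem
        ((stabMod A (Dsub A (g :: L))).inv_mem hg) h2
      simpa using h3

/-- norm with respect to a finite subgroup `R` -/
noncomputable def nrm (R : Subgroup (Γ ⧸ A)) [Fintype R] : A →* A where
  toFun b := ∏ ρ : R, act A ρ b
  map_one' := by simp
  map_mul' a b := by simp [Finset.prod_mul_distrib]

lemma nrm_apply (R : Subgroup (Γ ⧸ A)) [Fintype R] (b : A) :
    nrm A R b = ∏ ρ : R, act A ρ b := rfl

lemma nrm_act (R : Subgroup (Γ ⧸ A)) [Fintype R] (σ : Γ ⧸ A) (hσ : σ ∈ R) (b : A) :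
    nrm A R (act A σ b) = nrm A R b := by
  rw [nrm_apply, nrm_apply]
  have h : ∀ ρ : R, act A ρ (act A σ b) = act A ((ρ * ⟨σ, hσ⟩ : R) : Γ ⧸ A) b := by
    intro ρ
    rw [Subgroup.coe_mul, map_mul, MulAut.mul_apply]
  rw [Finset.prod_congr rfl fun ρ _ => h ρ]
  exact Fintype.prod_equiv (Equiv.mulRight ⟨σ, hσ⟩) _ _ (fun ρ => rfl)

lemma nrm_cm (R : Subgroup (Γ ⧸ A)) [Fintype R] (σ : Γ ⧸ A) (hσ : σ ∈ R) (b : A) :
    nrm A R (cm A σ b) = 1 := by
  rw [cm_apply, map_mul, map_inv, nrm_act A R σ hσ, mul_inv_cancel]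

lemma nrm_Dsub (R : Subgroup (Γ ⧸ A)) [Fintype R] (L : List Γ)
    (hL : ∀ g ∈ L, QuotientGroup.mk' A g ∈ R) (d : A) (hd : d ∈ Dsub A L) :
    nrm A R d = 1 := by
  induction L generalizing d with
  | nil =>
    simp only [Dsub, Subgroup.mem_bot] at hd
    rw [hd, map_one]
  | cons g L ih =>
    simp only [Dsub] at hd
    rw [Subgroup.mem_sup] at hd
    obtain ⟨y, ⟨a, ha⟩, z, ⟨d', hd', hz⟩, hyz⟩ := hd
    have hz' : act A (QuotientGroup.mk' A g) d' = z := hz
    rw [← hyz, map_mul, ← ha, ← hz', nrm_cm A R _ (hL g (by simp)),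
      nrm_act A R _ (hL g (by simp)), ih (fun g' hg' => hL g' (by simp [hg'])) d' hd', one_mul]

/-- `|R|`-th powers of norm-one elements are in `D` -/
lemma pow_mem_of_nrm (R : Subgroup (Γ ⧸ A)) [Fintype R] (D : Subgroup A)
    (hR : R ≤ stabMod A D) (b : A) (hb : nrm A R b = 1) : b ^ Fintype.card R ∈ D := by
  have h : b ^ Fintype.card R = ∏ ρ : R, cm A ρ b := by
    have h1 : ∏ ρ : R, cm A ρ b = (∏ _ρ : R, b) * (nrm A R b)⁻¹ := by
      rw [nrm_apply, ← Finset.prod_inv_distrib, ← Finset.prod_mul_distrib]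
      exact Finset.prod_congr rfl fun ρ _ => cm_apply A ρ b
    rw [h1, hb, inv_one, mul_one, Finset.prod_const, Finset.card_univ]
  rw [h]
  exact Subgroup.prod_mem _ fun ρ _ => hR ρ.2 b

/-- **closedness**: if `∏ g_i ∈ A` and for every `k` some product of `A`-conjugates of the `g_i`
is a `p ^ k`-th power of an element of `A`, then some product of `A`-conjugates of the `g_i`
is `1`. -/
theorem closed (p : ℕ) [hp : Fact p.Prime] (e : ℕ) (hcard : Nat.card (Γ ⧸ A) = p ^ e)
    (htf : ∀ (k : ℕ) (z : A), z ^ p ^ k = 1 → z = 1)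
    (hhd : ∀ z : A, (∀ k : ℕ, ∃ c : A, z = c ^ p ^ k) → z = 1)
    (L : List Γ) (h : ∀ k : ℕ, ∃ L' : List (Γ × A), L'.map Prod.fst = L ∧
      ∃ c : A, cprod A L' = (c ^ p ^ k : A)) :
    ∃ L' : List (Γ × A), L'.map Prod.fst = L ∧ cprod A L' = 1 := by
  classical
  have : Finite (Γ ⧸ A) := by
    apply Nat.finite_of_card_ne_zero
    rw [hcard]
    exact pow_ne_zero _ hp.out.ne_zero
  set R : Subgroup (Γ ⧸ A) := Subgroup.closure {ρ | ∃ g ∈ L, ρ = QuotientGroup.mk' A g} with hRdef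
  have : Fintype R := Fintype.ofFinite R
  have hLR : ∀ g ∈ L, QuotientGroup.mk' A g ∈ R := fun g hg =>
    Subgroup.subset_closure ⟨g, hg, rfl⟩
  have hR : R ≤ stabMod A (Dsub A L) := by
    rw [hRdef, Subgroup.closure_le]
    rintro ρ ⟨g, hg, rfl⟩
    exact mem_stab_of_mem A L g hg
  -- card R divides p ^ e
  have hRc : Fintype.card R ∣ p ^ e := by
    rw [← hcard, ← Nat.card_eq_fintype_card]
    exact Subgroup.card_subgroup_dvd_card R
  -- the product is in A
  have hprod : L.prod ∈ A := by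
    obtain ⟨L', hL', c, hc⟩ := h 0
    obtain ⟨d, _, hd⟩ := cprod_mem A L'
    rw [hL', hc] at hd
    have : L.prod = (d : Γ)⁻¹ * ((c ^ p ^ 0 : A) : Γ) := by rw [hd]; group
    rw [this]
    exact A.mul_mem (A.inv_mem d.2) (c ^ p ^ 0 : A).2
  set b0 : A := ⟨L.prod, hprod⟩ with hb0
  have hk : ∀ k : ℕ, ∃ d ∈ Dsub A L, ∃ c : A, d * b0 = c ^ p ^ k := by
    intro k
    obtain ⟨L', hL', c, hc⟩ := h k
    obtain ⟨d, hdm, hd⟩ := cprod_mem A L'
    rw [hL'] at hdm hd
    refine ⟨d, hdm, c, ?_⟩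
    ext
    rw [Subgroup.coe_mul, ← hc, hd]
  have hn0 : nrm A R b0 = 1 := by
    apply hhd
    intro k
    obtain ⟨d, hdm, c, hc⟩ := hk k
    refine ⟨nrm A R c, ?_⟩
    rw [← map_pow, ← hc, map_mul, nrm_Dsub A R L hLR d hdm, one_mul]
  obtain ⟨q, hq⟩ := hRc
  obtain ⟨d, hdm, c, hc⟩ := hk e
  have hnc : nrm A R c = 1 := by
    apply htf e
    rw [← map_pow, ← hc, map_mul, nrm_Dsub A R L hLR d hdm, hn0, one_mul]
  have hcD : c ^ p ^ e ∈ Dsub A L := by
    rw [hq, pow_mul]
    exact Subgroup.pow_mem _ (pow_mem_of_nrm A R _ hR c hnc) _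
  have hb0D : b0 ∈ Dsub A L := by
    have : b0 = d⁻¹ * c ^ p ^ e := by rw [← hc]; group
    rw [this]
    exact Subgroup.mul_mem _ (Subgroup.inv_mem _ hdm) hcD
  obtain ⟨L', hL', h'⟩ := mem_cprod A L b0⁻¹ (Subgroup.inv_mem _ hb0D)
  refine ⟨L', hL', ?_⟩
  rw [h']
  simp [hb0]

end Core

end Pool.Agent.H30.Kerv
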