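import Pool.Agent.H30.Kerv.Gamma

/-!
# Quotient closure and the free cover
-/

set_option autoImplicit false

namespace Pool.Agent.H30.Kerv

open Monoid
open scoped IsMulCommutative

universe u v

/-- products of conjugates of elements of the kernel of `π` -/
def conjSub {Γ G H : Type*} [Group Γ] [Group G] [Group H] (π : Γ →* G) (φ : Γ →* H) :
    Subgroup H where
  carrier := {x | ∃ K : List (Γ × H), (∀ z ∈ K, π z.1 = 1) ∧
    (K.map (fun z => z.2 * φ z.1 * z.2⁻¹)).prod = x}
  one_mem' := ⟨[], by simp, by simp⟩
  mul_mem' := by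
    rintro x y ⟨K, hK, rfl⟩ ⟨K', hK', rfl⟩
    refine ⟨K ++ K', ?_, by simp⟩
    intro z hz
    rcases List.mem_append.1 hz with h | h
    · exact hK z h
    · exact hK' z h
  inv_mem' := by
    rintro x ⟨K, hK, rfl⟩
    refine ⟨(K.map (fun z => (z.1⁻¹, z.2))).reverse, ?_, ?_⟩
    · intro z hz
      rw [List.mem_reverse, List.mem_map] at hz
      obtain ⟨a, ha, rfl⟩ := hz
      simp [hK a ha]
    · rw [List.prod_inv_reverse, List.map_reverse, List.map_map, List.map_map]
      congr 2
      apply List.map_congr_left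
      intro z _
      simp only [Function.comp_apply, map_inv]
      group

lemma conjSub_normal {Γ G H : Type*} [Group Γ] [Group G] [Group H] (π : Γ →* G) (φ : Γ →* H) :
    (conjSub π φ).Normal := by
  constructor
  rintro x ⟨K, hK, rfl⟩ h
  refine ⟨K.map (fun z => (z.1, h * z.2)), ?_, ?_⟩
  · intro z hz
    rw [List.mem_map] at hz
    obtain ⟨a, ha, rfl⟩ := hz
    exact hK a ha
  · rw [List.map_map, ← MulAut.conj_apply, map_list_prod, List.map_map]
    congr 1
    apply List.map_congr_left
    intro z _
    simp only [Function.comp_apply, MulAut.conj_apply]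
    group

/-- lifting a product-one relation along a surjection -/
theorem po_lift {Γ G : Type u} [Group Γ] [Group G] (π : Γ →* G) (hπ : Function.Surjective π)
    {n : ℕ} (w : Fin n → Coprod G (FreeGroup (Fin n)))
    (w' : Fin n → Coprod Γ (FreeGroup (Fin n)))
    (hww : ∀ j, Coprod.map π (MonoidHom.id _) (w' j) = w j) (L : List G)
    (hL : PO ((QuotientGroup.mk' (Subgroup.normalClosure (Set.range w))).comp Coprod.inl) L) :
    ∃ (L1 K : List Γ), L1.map π = L ∧ (∀ κ ∈ K, π κ = 1) ∧
      PO ((QuotientGroup.mk' (Subgroup.normalClosure (Set.range w'))).comp Coprod.inl)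
        (L1 ++ K) := by
  classical
  set P : Coprod Γ (FreeGroup (Fin n)) →* Coprod G (FreeGroup (Fin n)) :=
    Coprod.map π (MonoidHom.id _) with hP
  have hPs : Function.Surjective P := by
    intro x
    induction x using Coprod.induction_on with
    | inl m =>
      obtain ⟨γ, rfl⟩ := hπ m
      exact ⟨Coprod.inl γ, by simp [hP]⟩
    | inr m => exact ⟨Coprod.inr m, by simp [hP]⟩
    | mul x y hx hy =>
      obtain ⟨a, rfl⟩ := hx
      obtain ⟨b, rfl⟩ := hy
      exact ⟨a * b, by simp⟩
  set N := Subgroup.normalClosure (Set.range w) with hN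
  obtain ⟨L', hL', hprod⟩ := hL
  set N' := Subgroup.normalClosure (Set.range w') with hN'
  -- lifts
  have hlift : ∀ z : G × (Coprod G (FreeGroup (Fin n)) ⧸ N),
      ∃ y : Γ × Coprod Γ (FreeGroup (Fin n)), π y.1 = z.1 ∧ QuotientGroup.mk' N (P y.2) = z.2 := by
    intro z
    obtain ⟨γ, hγ⟩ := hπ z.1
    obtain ⟨x, hx⟩ := QuotientGroup.mk'_surjective N z.2
    obtain ⟨y, hy⟩ := hPs x
    exact ⟨(γ, y), hγ, by rw [hy, hx]⟩
  choose lf hlf1 hlf2 using hlift
  let E : Coprod Γ (FreeGroup (Fin n)) :=
    (L'.map (fun z => (lf z).2 * Coprod.inl (lf z).1 * (lf z).2⁻¹)).prod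
  have hPE : P E ∈ N := by
    rw [← QuotientGroup.eq_one_iff]
    change QuotientGroup.mk' N (P E) = 1
    rw [← hprod, map_list_prod, map_list_prod, List.map_map, List.map_map]
    congr 1
    apply List.map_congr_left
    intro z _
    simp only [Function.comp_apply, map_mul, map_inv, MonoidHom.comp_apply]
    rw [hlf2, hP, Coprod.map_apply_inl, hlf1]
  -- the total kernel
  set T : Set (Coprod Γ (FreeGroup (Fin n))) :=
    Set.range w' ∪ (Coprod.inl '' (π.ker : Set Γ)) with hT
  set N2 := Subgroup.normalClosure T with hN2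
  have hE : E ∈ N2 := by
    let s1 : G →* Coprod Γ (FreeGroup (Fin n)) ⧸ N2 :=
      MonoidHom.liftOfRightInverse π (Function.surjInv hπ) (Function.rightInverse_surjInv hπ)
        ⟨(QuotientGroup.mk' N2).comp Coprod.inl, by
          intro x hx
          rw [MonoidHom.mem_ker, MonoidHom.comp_apply]
          change QuotientGroup.mk (Coprod.inl x) = _
          rw [QuotientGroup.eq_one_iff]
          exact Subgroup.subset_normalClosure (Or.inr ⟨x, hx, rfl⟩)⟩
    have hs1 : ∀ γ, s1 (π γ) = QuotientGroup.mk' N2 (Coprod.inl γ) := by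
      intro γ
      exact MonoidHom.liftOfRightInverse_comp_apply _ _ _ _ _
    let s : Coprod G (FreeGroup (Fin n)) →* Coprod Γ (FreeGroup (Fin n)) ⧸ N2 :=
      Coprod.lift s1 ((QuotientGroup.mk' N2).comp Coprod.inr)
    have hs : s.comp P = QuotientGroup.mk' N2 := by
      apply Coprod.hom_ext
      · ext γ
        simp only [MonoidHom.comp_apply, hP, Coprod.map_apply_inl, s, Coprod.lift_apply_inl, hs1]
      · ext k
        simp [hP, s]
    have hsN : N ≤ s.ker := by
      apply Subgroup.normalClosure_le_normal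
      rintro _ ⟨j, rfl⟩
      rw [SetLike.mem_coe, MonoidHom.mem_ker, ← hww j]
      change (s.comp P) (w' j) = 1
      rw [hs]
      change QuotientGroup.mk (w' j) = _
      rw [QuotientGroup.eq_one_iff]
      exact Subgroup.subset_normalClosure (Or.inl ⟨j, rfl⟩)
    have h1 : (s.comp P) E = 1 := hsN hPE
    rw [hs] at h1
    exact (QuotientGroup.eq_one_iff _).1 h1
  -- in the quotient by N'
  set φ : Γ →* Coprod Γ (FreeGroup (Fin n)) ⧸ N' := (QuotientGroup.mk' N').comp Coprod.inl with hφ
  have hEbar : (QuotientGroup.mk' N' E)⁻¹ ∈ conjSub π φ := by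
    apply Subgroup.inv_mem
    have hle : N2 ≤ (conjSub π φ).comap (QuotientGroup.mk' N') := by
      have : ((conjSub π φ).comap (QuotientGroup.mk' N')).Normal :=
        (conjSub_normal π φ).comap _
      apply Subgroup.normalClosure_le_normal
      rintro x (⟨j, rfl⟩ | ⟨κ, hκ, rfl⟩)
      · rw [SetLike.mem_coe, Subgroup.mem_comap]
        have : QuotientGroup.mk' N' (w' j) = 1 := by
          change QuotientGroup.mk (w' j) = _
          rw [QuotientGroup.eq_one_iff]
          exact Subgroup.subset_normalClosure ⟨j, rfl⟩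
        rw [this]
        exact Subgroup.one_mem _
      · rw [SetLike.mem_coe, Subgroup.mem_comap]
        refine ⟨[(κ, 1)], ?_, by simp [hφ]⟩
        intro z hz
        rw [List.mem_singleton] at hz
        rw [hz]
        exact hκ
    exact hle hE
  obtain ⟨K, hK, hKprod⟩ := hEbar
  refine ⟨L'.map (fun z => (lf z).1), K.map Prod.fst, ?_, ?_, ?_⟩
  · rw [List.map_map, ← hL']
    apply List.map_congr_left
    intro z _
    exact hlf1 z
  · intro κ hκ
    rw [List.mem_map] at hκ
    obtain ⟨z, hz, rfl⟩ := hκ
    exact hK z hz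
  · refine ⟨L'.map (fun z => ((lf z).1, QuotientGroup.mk' N' (lf z).2)) ++ K, ?_, ?_⟩
    · rw [List.map_append, List.map_map]; rfl
    · rw [List.map_append, List.prod_append, hKprod, List.map_map]
      have : (L'.map ((fun x : Γ × (Coprod Γ (FreeGroup (Fin n)) ⧸ N') => x.2 * φ x.1 * x.2⁻¹) ∘
          fun z => ((lf z).1, QuotientGroup.mk' N' (lf z).2))).prod = QuotientGroup.mk' N' E := by
        rw [map_list_prod, List.map_map]
        rfl
      rw [this, mul_inv_cancel]

/-- quotient closure of Q1 for one system -/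
theorem po_quot {Γ G : Type u} [Group Γ] [Group G] (π : Γ →* G) (L1 K : List Γ)
    (hK : ∀ κ ∈ K, π κ = 1) (h : PO (MonoidHom.id Γ) (L1 ++ K)) :
    PO (MonoidHom.id G) (L1.map π) := by
  obtain ⟨L', hL', hprod⟩ := h
  obtain ⟨A', B', rfl, hA', hB'⟩ := List.map_eq_append_iff.1 hL'
  refine ⟨A'.map (fun z => (π z.1, π z.2)), ?_, ?_⟩
  · rw [List.map_map, ← hA', List.map_map]; rfl
  · have h := congrArg π hprod
    rw [List.map_append, List.prod_append, map_mul, map_one, map_list_prod, map_list_prod,
      List.map_map, List.map_map] at h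
    have hB : (B'.map (π ∘ fun x : Γ × Γ => x.2 * (MonoidHom.id Γ) x.1 * x.2⁻¹)).prod = 1 := by
      apply List.prod_eq_one
      intro x hx
      rw [List.mem_map] at hx
      obtain ⟨z, hz, rfl⟩ := hx
      have : π z.1 = 1 := hK _ (by rw [← hB']; exact List.mem_map_of_mem hz)
      simp [this]
    rw [hB, mul_one] at h
    rw [← h, List.map_map]
    congr 1
    apply List.map_congr_left
    intro z _
    simp

/-- a homomorphism criterion for membership in the commutator subgroup of a free group -/
lemma mem_commutator_freeGroup {ι : Type u} (x : FreeGroup ι)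
    (h : ∀ χ : FreeGroup ι →* Multiplicative ℤ, χ x = 1) : x ∈ commutator (FreeGroup ι) := by
  classical
  let Θ : FreeGroup ι →* Multiplicative (ι →₀ ℤ) :=
    FreeGroup.lift (fun i => Multiplicative.ofAdd (Finsupp.single i 1))
  let s0 : (ι →₀ ℤ) →+ Additive (Abelianization (FreeGroup ι)) :=
    Finsupp.liftAddHom (fun i => zmultiplesHom _ (Additive.ofMul (Abelianization.of
      (FreeGroup.of i))))
  let s : Multiplicative (ι →₀ ℤ) →* Abelianization (FreeGroup ι) :=
    { toFun := fun z => Additive.toMul (s0 (Multiplicative.toAdd z))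
      map_one' := by
        change Additive.toMul (s0 0) = 1
        rw [map_zero]; rfl
      map_mul' := fun a b => by
        change Additive.toMul (s0 (Multiplicative.toAdd a + Multiplicative.toAdd b)) = _
        rw [map_add]; rfl }
  have hs : s.comp Θ = Abelianization.of := by
    ext i
    simp only [MonoidHom.comp_apply, Θ, FreeGroup.lift_apply_of, s, MonoidHom.coe_mk,
      OneHom.coe_mk, toAdd_ofAdd, s0, Finsupp.liftAddHom_apply_single]
    simp
  have hΘ : Θ x = 1 := by
    have hco : ∀ i, Multiplicative.toAdd (Θ x) i = 0 := by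
      intro i
      let c : Multiplicative (ι →₀ ℤ) →* Multiplicative ℤ :=
        AddMonoidHom.toMultiplicative (Finsupp.applyAddHom i)
      have := h (c.comp Θ)
      exact this
    have h0 : Multiplicative.toAdd (Θ x) = 0 := by
      ext i
      exact hco i
    exact h0
  have h1 : (Abelianization.of x : Abelianization (FreeGroup ι)) = 1 := by
    rw [← hs, MonoidHom.comp_apply, hΘ, map_one]
  exact (QuotientGroup.eq_one_iff _).1 h1

lemma mem_commutator_of_hom {R : Type u} [Group R] [IsFreeGroup R] (x : R)
    (h : ∀ χ : R →* Multiplicative ℤ, χ x = 1) : x ∈ commutator R := by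
  let e : R ≃* FreeGroup (IsFreeGroup.Generators R) := IsFreeGroup.toFreeGroup R
  have h2 : e x ∈ commutator (FreeGroup (IsFreeGroup.Generators R)) :=
    mem_commutator_freeGroup _ fun χ => h (χ.comp e.toMonoidHom)
  have h3 : (commutator R).map e.toMonoidHom = commutator (FreeGroup _) := by
    rw [commutator_def, commutator_def, Subgroup.map_commutator,
      Subgroup.map_top_of_surjective _ e.surjective]
  rw [← h3] at h2
  obtain ⟨y, hy, hyx⟩ := h2
  have : y = x := e.injective hyx
  rw [← this]; exact hy

end Pool.Agent.H30.Kerv
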