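import Pool.Agent.H30.Kerv.Core

/-!
# Q1 for groups with a torsion-free, `p`-adically separated abelian normal subgroup of
`p`-power index
-/

set_option autoImplicit false

namespace Pool.Agent.H30.Kerv

open Monoid
open scoped IsMulCommutative

universe u v

/-- product-one relation between conjugates of the images of the members of `L` -/
def PO {Γ : Type u} {H : Type v} [Group Γ] [Group H] (φ : Γ →* H) (L : List Γ) : Prop :=
  ∃ L' : List (Γ × H), L'.map Prod.fst = L ∧ (L'.map (fun x => x.2 * φ x.1 * x.2⁻¹)).prod = 1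

section

variable {Γ : Type u} [Group Γ] (A : Subgroup Γ) [hA : A.Normal] [IsMulCommutative A]

/-- the subgroup of `m`-th powers -/
def powSub (m : ℕ) : Subgroup Γ := ((powMonoidHom m : A →* A).range).map A.subtype

lemma mem_powSub (m : ℕ) (x : Γ) : x ∈ powSub A m ↔ ∃ c : A, x = (c ^ m : A) := by
  constructor
  · rintro ⟨y, ⟨c, rfl⟩, rfl⟩
    exact ⟨c, rfl⟩
  · rintro ⟨c, rfl⟩
    exact ⟨c ^ m, ⟨c, rfl⟩, rfl⟩

instance powSub_normal (m : ℕ) : (powSub A m).Normal := by
  constructor
  intro x hx g
  rw [mem_powSub] at hx ⊢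
  obtain ⟨c, rfl⟩ := hx
  refine ⟨⟨g * c * g⁻¹, hA.conj_mem _ c.2 g⟩, ?_⟩
  simp [conj_pow]

lemma powSub_le (m : ℕ) : powSub A m ≤ A := by
  intro x hx
  rw [mem_powSub] at hx
  obtain ⟨c, rfl⟩ := hx
  exact (c ^ m : A).2

lemma solv_quot (p : ℕ) [hp : Fact p.Prime] (e : ℕ) (hcard : Nat.card (Γ ⧸ A) = p ^ e) (k : ℕ) :
    Solv p (Γ ⧸ powSub A (p ^ k)) := by
  have hpow : ∀ x : Γ ⧸ powSub A (p ^ k), x ^ (p ^ e * p ^ k) = 1 := by
    intro x
    induction x using QuotientGroup.induction_on with
    | H x =>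
      rw [← QuotientGroup.mk_pow, QuotientGroup.eq_one_iff, mem_powSub]
      have hxe : x ^ p ^ e ∈ A := by
        rw [← QuotientGroup.eq_one_iff, QuotientGroup.mk_pow, ← hcard]
        exact pow_card_eq_one'
      refine ⟨⟨x ^ p ^ e, hxe⟩, ?_⟩
      simp [pow_mul]
  apply solv_of_locallyFinite
  · intro x
    exact ⟨e + k, by rw [pow_add]; exact hpow x⟩
  · intro T
    have hfi : A.FiniteIndex := by
      constructor
      rw [Subgroup.index, hcard]
      exact pow_ne_zero _ hp.out.ne_zero
    let B : Subgroup (Γ ⧸ powSub A (p ^ k)) := A.map (QuotientGroup.mk' (powSub A (p ^ k)))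
    have hB : B.FiniteIndex := by
      constructor
      intro h0
      have h1 : (A.map (QuotientGroup.mk' (powSub A (p ^ k)))).index ∣ A.index := by
        exact Subgroup.index_map_dvd A (QuotientGroup.mk'_surjective _)
      rw [show (A.map (QuotientGroup.mk' (powSub A (p ^ k)))).index = 0 from h0] at h1
      exact hfi.index_ne_zero (zero_dvd_iff.1 h1)
    have : IsMulCommutative B := Subgroup.map_isMulCommutative A _
    refine finite_closure B (fun x => ?_) T
    rw [isOfFinOrder_iff_pow_eq_one]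
    exact ⟨p ^ e * p ^ k, by have := hp.out.pos; positivity, hpow x⟩

/-- representative of a coset -/
noncomputable def rep (y : Γ ⧸ A) : Γ := (QuotientGroup.mk'_surjective A y).choose

lemma mk_rep (y : Γ ⧸ A) : QuotientGroup.mk' A (rep A y) = y :=
  (QuotientGroup.mk'_surjective A y).choose_spec

/-- conjugate of `g` by the representative -/
noncomputable def twist (z : Γ × (Γ ⧸ A)) : Γ := rep A z.2 * z.1 * (rep A z.2)⁻¹

/-- pass from conjugators in `Γ` to conjugators in `A` -/
noncomputable def toA (z : Γ × Γ) : Γ × A :=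
  (twist A (z.1, QuotientGroup.mk' A z.2),
    ⟨z.2 * (rep A (QuotientGroup.mk' A z.2))⁻¹, by
      rw [← QuotientGroup.eq_one_iff]
      change QuotientGroup.mk' A _ = 1
      rw [map_mul, map_inv, mk_rep, mul_inv_cancel]⟩)

lemma cprod_toA (L : List (Γ × Γ)) :
    cprod A (L.map (toA A)) = (L.map (fun x => x.2 * x.1 * x.2⁻¹)).prod := by
  induction L with
  | nil => rfl
  | cons x L ih =>
    simp only [List.map_cons, cprod, ih, List.prod_cons, toA, twist]
    group

lemma exists_of_twist (L : List Γ) (y : List (Γ ⧸ A)) (hy : y.length = L.length)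
    (L' : List (Γ × A)) (h : L'.map Prod.fst = (List.zip L y).map (twist A)) :
    ∃ L'' : List (Γ × Γ), L''.map Prod.fst = L ∧
      (L''.map (fun x => x.2 * x.1 * x.2⁻¹)).prod = cprod A L' := by
  induction L generalizing y L' with
  | nil =>
    simp only [List.zip_nil_left, List.map_nil, List.map_eq_nil_iff] at h
    subst h
    exact ⟨[], rfl, rfl⟩
  | cons g L ih =>
    cases y with
    | nil => simp at hy
    | cons y0 y =>
      cases L' with
      | nil => simp at h
      | cons a L' =>
        simp only [List.zip_cons_cons, List.map_cons, List.cons.injEq] at h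
        obtain ⟨L'', h1, h2⟩ := ih y (by simpa using hy) L' h.2
        refine ⟨(g, a.2 * rep A y0) :: L'', by simp [h1], ?_⟩
        simp only [List.map_cons, List.prod_cons, h2, cprod]
        rw [h.1]
        simp only [twist]
        group

/-- Q1 for `Γ` (list form) -/
theorem po_of_po (p : ℕ) [hp : Fact p.Prime] (e : ℕ) (hcard : Nat.card (Γ ⧸ A) = p ^ e)
    (htf : ∀ (k : ℕ) (z : A), z ^ p ^ k = 1 → z = 1)
    (hhd : ∀ z : A, (∀ k : ℕ, ∃ c : A, z = c ^ p ^ k) → z = 1)
    {n : ℕ} (w : Fin n → Coprod Γ (FreeGroup (Fin n))) (hw : ¬ (p : ℤ) ∣ (emat w).det)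
    (L : List Γ)
    (hL : PO ((QuotientGroup.mk' (Subgroup.normalClosure (Set.range w))).comp Coprod.inl) L) :
    PO (MonoidHom.id Γ) L := by
  classical
  have hfin : Finite (Γ ⧸ A) := by
    apply Nat.finite_of_card_ne_zero
    rw [hcard]
    exact pow_ne_zero _ hp.out.ne_zero
  obtain ⟨L1, hL1, hprod⟩ := hL
  -- approximate solutions
  have happ : ∀ k : ℕ, ∃ L'' : List (Γ × Γ), L''.map Prod.fst = L ∧
      ∃ c : A, (L''.map (fun x => x.2 * x.1 * x.2⁻¹)).prod = (c ^ p ^ k : A) := by
    intro k
    set N := powSub A (p ^ k) with hN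
    set q := QuotientGroup.mk' N with hq
    obtain ⟨τ, hτ⟩ := solv_quot A p e hcard k n (fun j => Coprod.map q (MonoidHom.id _) (w j))
      (by rw [emat_map]; exact hw)
    let ρ : (Coprod Γ (FreeGroup (Fin n)) ⧸ Subgroup.normalClosure (Set.range w)) →* Γ ⧸ N :=
      QuotientGroup.lift _ (ev q τ) (by
        intro x hx
        have : Subgroup.normalClosure (Set.range w) ≤ (ev q τ).ker := by
          apply Subgroup.normalClosure_le_normal
          rintro _ ⟨j, rfl⟩
          have := hτ j
          rw [ev_map] at this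
          exact this
        exact this hx)
    have hρ : ∀ g : Γ, ρ (QuotientGroup.mk' _ (Coprod.inl g)) = q g := by
      intro g
      change ρ (QuotientGroup.mk (Coprod.inl g)) = _
      rw [QuotientGroup.lift_mk]
      simp
    -- lift conjugators
    let f : Γ × (Coprod Γ (FreeGroup (Fin n)) ⧸ Subgroup.normalClosure (Set.range w)) → Γ × Γ :=
      fun z => (z.1, (QuotientGroup.mk'_surjective N (ρ z.2)).choose)
    have hf : ∀ z, q (f z).2 = ρ z.2 := fun z =>
      (QuotientGroup.mk'_surjective N (ρ z.2)).choose_spec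
    refine ⟨L1.map f, by rw [List.map_map]; exact hL1, ?_⟩
    rw [← mem_powSub, ← hN, ← QuotientGroup.eq_one_iff]
    change q _ = 1
    have h := congrArg ρ hprod
    rw [map_one, map_list_prod, List.map_map] at h
    rw [map_list_prod, List.map_map, List.map_map, ← h]
    congr 1
    apply List.map_congr_left
    intro z _
    simp only [Function.comp_apply, map_mul, map_inv, MonoidHom.comp_apply]
    rw [hf, hρ]
  -- pigeonhole on cosets
  let S : ℕ → List (Γ ⧸ A) → Prop := fun k y =>
    ∃ L'' : List (Γ × Γ), L''.map Prod.fst = L ∧ L''.map (fun z => QuotientGroup.mk' A z.2) = y ∧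
      ∃ c : A, (L''.map (fun x => x.2 * x.1 * x.2⁻¹)).prod = (c ^ p ^ k : A)
  have hmono : ∀ k k' y, k ≤ k' → S k' y → S k y := by
    rintro k k' y hkk ⟨L'', h1, h2, c, hc⟩
    refine ⟨L'', h1, h2, c ^ p ^ (k' - k), ?_⟩
    rw [hc, ← pow_mul, ← pow_add, Nat.sub_add_cancel hkk]
  have hex : ∃ y : List (Γ ⧸ A), y.length = L.length ∧ ∀ k, S k y := by
    by_contra hcon
    push_neg at hcon
    have hfinL : {y : List (Γ ⧸ A) | y.length = L.length}.Finite :=
      List.finite_length_eq _ _
    choose! kk hkk using hcon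
    obtain ⟨B, hB⟩ := (hfinL.image kk).bddAbove
    obtain ⟨L'', h1, c, hc⟩ := happ B
    have hlen : (L''.map (fun z => QuotientGroup.mk' A z.2)).length = L.length := by
      rw [← h1]; simp
    have := hkk _ hlen
    apply this
    exact hmono _ B _ (hB ⟨_, hlen, rfl⟩) ⟨L'', h1, rfl, c, hc⟩
  obtain ⟨y, hylen, hy⟩ := hex
  obtain ⟨L', hL', hone⟩ := closed A p e hcard htf hhd ((List.zip L y).map (twist A)) (by
    intro k
    obtain ⟨L'', h1, h2, c, hc⟩ := hy k
    refine ⟨L''.map (toA A), ?_, c, ?_⟩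
    · rw [List.map_map, ← h1, ← h2, List.zip_map', List.map_map]
      apply List.map_congr_left
      intro z _
      rfl
    · rw [cprod_toA, hc])
  obtain ⟨L'', h1, h2⟩ := exists_of_twist A L y hylen L' hL'
  exact ⟨L'', h1, by simpa [hone] using h2⟩

end

end Pool.Agent.H30.Kerv
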