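import Pool.Agent.H30.Kerv.Solve

set_option autoImplicit false

namespace Pool.Agent.H30.Kerv

open Monoid
open scoped IsMulCommutative

universe u v

lemma exists_finset_lift {K : Type u} [Group K] {n : ℕ} (x : Coprod K (FreeGroup (Fin n))) :
    ∃ T : Finset K, ∀ K0 : Subgroup K, (T : Set K) ⊆ K0 →
      ∃ x' : Coprod K0 (FreeGroup (Fin n)),
        Coprod.map K0.subtype (MonoidHom.id _) x' = x := by
  classical
  induction x using Coprod.induction_on with
  | inl m =>
    refine ⟨{m}, fun K0 h => ⟨Coprod.inl ⟨m, ?_⟩, ?_⟩⟩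
    · exact h (by simp)
    · simp
  | inr m => exact ⟨∅, fun K0 _ => ⟨Coprod.inr m, by simp⟩⟩
  | mul x y hx hy =>
    obtain ⟨T1, h1⟩ := hx
    obtain ⟨T2, h2⟩ := hy
    refine ⟨T1 ∪ T2, fun K0 h => ?_⟩
    rw [Finset.coe_union, Set.union_subset_iff] at h
    obtain ⟨x', hx'⟩ := h1 K0 h.1
    obtain ⟨y', hy'⟩ := h2 K0 h.2
    exact ⟨x' * y', by rw [map_mul, hx', hy']⟩

lemma solv_of_locallyFinite {p : ℕ} [hp : Fact p.Prime] (K : Type u) [Group K]
    (hK : IsPGroup p K) (hfin : ∀ T : Finset K, Finite (Subgroup.closure (T : Set K))) :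
    Solv p K := by
  classical
  intro n w hw
  choose T hT using fun j => exists_finset_lift (w j)
  set K0 := Subgroup.closure ((Finset.univ.biUnion T : Finset K) : Set K) with hK0
  have hsub : ∀ j, (T j : Set K) ⊆ K0 := by
    intro j x hx
    apply Subgroup.subset_closure
    simp only [Finset.coe_biUnion, Set.mem_iUnion]
    exact ⟨j, Finset.mem_coe.2 (Finset.mem_univ j), hx⟩
  choose w' hw' using fun j => hT j K0 (hsub j)
  have : Finite K0 := hfin _
  have hp0 : IsPGroup p K0 := hK.to_subgroup K0
  have hdet : ¬ (p : ℤ) ∣ (emat w').det := by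
    have : emat w' = emat w := by
      rw [← emat_map K0.subtype w']
      congr 1
      funext j
      exact hw' j
    rw [this]; exact hw
  obtain ⟨τ, hτ⟩ := solv_of_finite K0 hp0 n w' hdet
  refine ⟨fun k => τ k, fun j => ?_⟩
  rw [← hw' j, ev_map]
  have h := congrArg K0.subtype (hτ j)
  rw [ev_comp, map_one] at h
  exact h

/-- a finitely generated subgroup of an abelian-by-finite torsion group is finite -/
lemma finite_closure {K : Type u} [Group K] (B : Subgroup K) [IsMulCommutative B]
    [B.FiniteIndex] (htors : ∀ x : K, IsOfFinOrder x) (T : Finset K) :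
    Finite (Subgroup.closure (T : Set K)) := by
  set K0 := Subgroup.closure (T : Set K)
  have : Group.FG K0 := by
    rw [Group.fg_iff_subgroup_fg]
    exact ⟨T, rfl⟩
  let B0 : Subgroup K0 := B.subgroupOf K0
  have : B0.FiniteIndex := inferInstance
  have : Group.FG B0 := inferInstance
  have hB0 : IsMulCommutative B0 := inferInstance
  have : Finite B0 := by
    apply CommGroup.finite_of_fg_isMulTorsion
    intro x
    have h1 := htors ((x : K0) : K)
    rw [isOfFinOrder_iff_pow_eq_one] at h1 ⊢
    obtain ⟨n, hn, hx⟩ := h1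
    refine ⟨n, hn, ?_⟩
    ext
    simpa using hx
  exact Finite.of_subgroup_quotient B0

end Pool.Agent.H30.Kerv
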