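import Pool.Agent.H30.Kerv.Cover

set_option autoImplicit false

namespace Pool.Agent.H30.Kerv

open Monoid
open scoped IsMulCommutative

universe u v

lemma po_ofFn {Γ : Type u} {H : Type v} [Group Γ] [Group H] (φ : Γ →* H) (r : ℕ)
    (g : Fin r → Γ) :
    PO φ (List.ofFn g) ↔ ∃ h : Fin r → H, (List.ofFn (fun i => h i * φ (g i) * (h i)⁻¹)).prod = 1 := by
  constructor
  · rintro ⟨L', hL', hprod⟩
    have hlen : L'.length = r := by
      have := congrArg List.length hL'
      simpa using this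
    subst hlen
    have hg : g = fun i => (L'.get i).1 := by
      apply List.ofFn_injective
      rw [← hL']
      conv_lhs => rw [← List.ofFn_get L']
      rw [List.map_ofFn]
      rfl
    refine ⟨fun i => (L'.get i).2, ?_⟩
    rw [← hprod]
    conv_rhs => rw [← List.ofFn_get L']
    rw [List.map_ofFn, hg]
    rfl
  · rintro ⟨h, hprod⟩
    refine ⟨List.ofFn (fun i => (g i, h i)), ?_, ?_⟩
    · rw [List.map_ofFn]; rfl
    · rw [List.map_ofFn]; exact hprod

/-- Q1 for abelian-by-(finite `p`) groups, list form -/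
theorem main_list (p : ℕ) [hp : Fact p.Prime] {G : Type u} [Group G] (A : Subgroup G)
    [hAn : A.Normal] (hA : ∀ a ∈ A, ∀ b ∈ A, a * b = b * a) (e : ℕ)
    (hcard : Nat.card (G ⧸ A) = p ^ e)
    {n : ℕ} (w : Fin n → Coprod G (FreeGroup (Fin n))) (hw : ¬ (p : ℤ) ∣ (emat w).det)
    (L : List G)
    (hL : PO ((QuotientGroup.mk' (Subgroup.normalClosure (Set.range w))).comp Coprod.inl) L) :
    PO (MonoidHom.id G) L := by
  classical
  set f : FreeGroup G →* G := FreeGroup.lift id with hf
  have hfs : Function.Surjective f := fun g => ⟨FreeGroup.of g, by simp [hf]⟩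
  set R : Subgroup (FreeGroup G) := A.comap f with hR
  have hRn : R.Normal := hAn.comap f
  set C : Subgroup (FreeGroup G) := ⁅R, R⁆ with hC
  have hCn : C.Normal := Subgroup.commutator_normal R R
  have hCR : C ≤ R := Subgroup.commutator_le_self R
  -- the homomorphism Γ → G
  have hCker : ∀ x ∈ C, f x = 1 := by
    intro x hx
    have h1 : C ≤ f.ker := by
      rw [hC, Subgroup.commutator_le]
      intro a ha b hb
      rw [MonoidHom.mem_ker, map_commutatorElement, commutatorElement_def,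
        hA _ ha _ hb]
      group
    exact h1 hx
  let π : FreeGroup G ⧸ C →* G := QuotientGroup.lift C f hCker
  have hπs : Function.Surjective π := by
    intro g
    obtain ⟨x, hx⟩ := hfs g
    exact ⟨QuotientGroup.mk x, by simp [π, hx]⟩
  -- the abelian normal subgroup
  let A' : Subgroup (FreeGroup G ⧸ C) := R.map (QuotientGroup.mk' C)
  have hA'n : A'.Normal := hRn.map _ (QuotientGroup.mk'_surjective C)
  have hA'c : IsMulCommutative A' := by
    rw [isMulCommutative_iff]
    rintro ⟨_, ⟨x, hx, rfl⟩⟩ ⟨_, ⟨y, hy, rfl⟩⟩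
    ext
    change QuotientGroup.mk' C x * QuotientGroup.mk' C y =
      QuotientGroup.mk' C y * QuotientGroup.mk' C x
    rw [← map_mul, ← map_mul]
    change (QuotientGroup.mk (x * y) : FreeGroup G ⧸ C) = QuotientGroup.mk (y * x)
    rw [QuotientGroup.eq]
    have h := Subgroup.commutator_mem_commutator (R.inv_mem hy) (R.inv_mem hx)
    rw [commutatorElement_def] at h
    have : (x * y)⁻¹ * (y * x) = y⁻¹ * x⁻¹ * y⁻¹⁻¹ * x⁻¹⁻¹ := by group
    rw [this]
    exact h
  have hcard' : Nat.card ((FreeGroup G ⧸ C) ⧸ A') = p ^ e := by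
    have h1 : A'.index = R.index :=
      Subgroup.index_map_eq R (QuotientGroup.mk'_surjective C) (by
        rw [QuotientGroup.ker_mk']; exact hCR)
    have h2 : R.index = A.index := Subgroup.index_comap_of_surjective A hfs
    rw [← hcard]
    exact h1.trans h2
  -- homomorphisms to ℤ detect
  have hdet : ∀ x ∈ R, (∀ χ : R →* Multiplicative ℤ, ∀ hx : x ∈ R, χ ⟨x, hx⟩ = 1) → x ∈ C := by
    intro x hx h
    have h1 : (⟨x, hx⟩ : R) ∈ commutator R :=
      mem_commutator_of_hom _ fun χ => h χ hx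
    rw [hC, ← Subgroup.map_subtype_commutator]
    exact ⟨_, h1, rfl⟩
  have hχC : ∀ (χ : R →* Multiplicative ℤ) (x : R), (x : FreeGroup G) ∈ C → χ x = 1 := by
    intro χ x hx
    rw [hC, ← Subgroup.map_subtype_commutator] at hx
    obtain ⟨y, hy, hyx⟩ := hx
    have : y = x := Subtype.ext hyx
    rw [this] at hy
    exact Abelianization.commutator_subset_ker χ hy
  have htf : ∀ (k : ℕ) (z : A'), z ^ p ^ k = 1 → z = 1 := by
    rintro k ⟨_, ⟨x, hx, rfl⟩⟩ hz
    have hx' : x ^ p ^ k ∈ C := by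
      have h1 := congrArg Subtype.val hz
      change (QuotientGroup.mk' C x) ^ p ^ k = 1 at h1
      rw [← map_pow] at h1
      exact (QuotientGroup.eq_one_iff _).1 h1
    have hxC : x ∈ C := by
      apply hdet x hx
      intro χ hxR
      have h2 := hχC χ ((⟨x, hxR⟩ : R) ^ p ^ k) hx'
      rw [map_pow] at h2
      have h3 : (p ^ k : ℕ) • Multiplicative.toAdd (χ ⟨x, hxR⟩) = 0 := by
        rw [← toAdd_pow, h2]; rfl
      rw [nsmul_eq_mul, mul_eq_zero] at h3
      rcases h3 with h3 | h3
      · exfalso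
        have : (p ^ k : ℕ) ≠ 0 := pow_ne_zero _ hp.out.ne_zero
        exact this (by exact_mod_cast h3)
      · exact h3
    ext
    exact (QuotientGroup.eq_one_iff _).2 hxC
  have hhd : ∀ z : A', (∀ k : ℕ, ∃ c : A', z = c ^ p ^ k) → z = 1 := by
    rintro ⟨_, ⟨x, hx, rfl⟩⟩ hz
    have hxC : x ∈ C := by
      apply hdet x hx
      intro χ hxR
      have hdvd : ∀ k : ℕ, (p : ℤ) ^ k ∣ Multiplicative.toAdd (χ ⟨x, hxR⟩) := by
        intro k
        obtain ⟨⟨_, ⟨y, hy, rfl⟩⟩, hc⟩ := hz k
        have h1 := congrArg Subtype.val hc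
        change QuotientGroup.mk' C x = (QuotientGroup.mk' C y) ^ p ^ k at h1
        rw [← map_pow] at h1
        have h2 : (y ^ p ^ k)⁻¹ * x ∈ C := QuotientGroup.eq.1 h1.symm
        have h3 := hχC χ (((⟨y, hy⟩ : R) ^ p ^ k)⁻¹ * ⟨x, hxR⟩) h2
        rw [map_mul, map_inv, map_pow, inv_mul_eq_one] at h3
        rw [← h3, toAdd_pow, nsmul_eq_mul]
        push_cast
        exact dvd_mul_right _ _
      by_contra hne
      have hne' : Multiplicative.toAdd (χ ⟨x, hxR⟩) ≠ 0 := fun h => hne h
      obtain ⟨k, hk⟩ : ∃ k : ℕ, (Multiplicative.toAdd (χ ⟨x, hxR⟩)).natAbs < p ^ k :=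
        ⟨_, Nat.lt_pow_self hp.out.one_lt⟩
      have h4 := Int.natAbs_dvd_natAbs.2 (hdvd k)
      rw [Int.natAbs_pow, Int.natAbs_natCast] at h4
      have h5 := Nat.le_of_dvd (Int.natAbs_pos.2 hne') h4
      omega
    ext
    exact (QuotientGroup.eq_one_iff _).2 hxC
  -- lift the words
  have hPs : ∀ x : Coprod G (FreeGroup (Fin n)), ∃ y : Coprod (FreeGroup G ⧸ C) (FreeGroup (Fin n)),
      Coprod.map π (MonoidHom.id _) y = x := by
    intro x
    induction x using Coprod.induction_on with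
    | inl m =>
      obtain ⟨γ, rfl⟩ := hπs m
      exact ⟨Coprod.inl γ, by simp⟩
    | inr m => exact ⟨Coprod.inr m, by simp⟩
    | mul x y hx hy =>
      obtain ⟨a, rfl⟩ := hx
      obtain ⟨b, rfl⟩ := hy
      exact ⟨a * b, by simp⟩
  choose w' hw' using fun j => hPs (w j)
  obtain ⟨L1, K, hL1, hK, hPO⟩ := po_lift π hπs w w' hw' L hL
  have hw2 : ¬ (p : ℤ) ∣ (emat w').det := by
    have : emat w' = emat w := by
      rw [← emat_map π w']
      congr 1
      funext j
      exact hw' j
    rw [this]; exact hw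
  have h1 := po_of_po A' p e hcard' htf hhd w' hw2 (L1 ++ K) hPO
  have h2 := po_quot π L1 K hK h1
  rw [hL1] at h2
  exact h2

end Pool.Agent.H30.Kerv
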