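import Mathlib

/-!
# Nonsingular-mod-`p` systems over locally finite `p`-groups have solutions
-/

set_option autoImplicit false

namespace Pool.Agent.H30.Kerv

open Monoid
open scoped IsMulCommutative

universe u v

/-- exponent sum homomorphism -/
def expo (K : Type u) [Group K] {n : ℕ} (i : Fin n) :
    Coprod K (FreeGroup (Fin n)) →* Multiplicative ℤ :=
  Coprod.lift (1 : K →* Multiplicative ℤ)
    (FreeGroup.lift (fun k : Fin n => if k = i then Multiplicative.ofAdd (1 : ℤ) else 1))

/-- exponent matrix -/
def emat {K : Type u} [Group K] {n : ℕ} (w : Fin n → Coprod K (FreeGroup (Fin n))) :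
    Matrix (Fin n) (Fin n) ℤ :=
  Matrix.of (fun i j : Fin n => Multiplicative.toAdd (expo K i (w j)))

/-- evaluation -/
def ev {K : Type u} {L : Type v} [Group K] [Group L] {n : ℕ} (f : K →* L) (τ : Fin n → L) :
    Coprod K (FreeGroup (Fin n)) →* L :=
  Coprod.lift f (FreeGroup.lift τ)

@[simp] lemma ev_inl {K : Type u} {L : Type v} [Group K] [Group L] {n : ℕ} (f : K →* L)
    (τ : Fin n → L) (x : K) : ev f τ (Coprod.inl x) = f x := by simp [ev]

@[simp] lemma ev_inr {K : Type u} {L : Type v} [Group K] [Group L] {n : ℕ} (f : K →* L)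
    (τ : Fin n → L) (x : FreeGroup (Fin n)) : ev f τ (Coprod.inr x) = FreeGroup.lift τ x := by
  simp [ev]

lemma ev_map {K K' : Type u} {L : Type v} [Group K] [Group K'] [Group L] {n : ℕ} (q : K →* K')
    (f : K' →* L) (τ : Fin n → L) (x : Coprod K (FreeGroup (Fin n))) :
    ev f τ (Coprod.map q (MonoidHom.id _) x) = ev (f.comp q) τ x := by
  have : (ev f τ).comp (Coprod.map q (MonoidHom.id _)) = ev (f.comp q) τ := by
    apply Coprod.hom_ext
    · ext x; simp
    · ext x; simp
  exact DFunLike.congr_fun this x

lemma ev_comp {K : Type u} {L M : Type v} [Group K] [Group L] [Group M] {n : ℕ} (f : K →* L)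
    (τ : Fin n → L) (q : L →* M) (x : Coprod K (FreeGroup (Fin n))) :
    q (ev f τ x) = ev (q.comp f) (fun k => q (τ k)) x := by
  have : q.comp (ev f τ) = ev (q.comp f) (fun k => q (τ k)) := by
    apply Coprod.hom_ext
    · ext x; simp
    · ext x; simp
  exact DFunLike.congr_fun this x

lemma expo_map {K K' : Type u} [Group K] [Group K'] {n : ℕ} (q : K →* K') (i : Fin n)
    (x : Coprod K (FreeGroup (Fin n))) :
    expo K' i (Coprod.map q (MonoidHom.id _) x) = expo K i x := by
  have : (expo K' i).comp (Coprod.map q (MonoidHom.id _)) = expo K i := by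
    apply Coprod.hom_ext
    · ext x; simp [expo]
    · ext x; simp [expo]
  exact DFunLike.congr_fun this x

lemma emat_map {K K' : Type u} [Group K] [Group K'] {n : ℕ} (q : K →* K')
    (w : Fin n → Coprod K (FreeGroup (Fin n))) :
    emat (fun j => Coprod.map q (MonoidHom.id _) (w j)) = emat w := by
  ext i j
  simp [emat, expo_map]

/-- changing a substitution by central elements -/
lemma ev_mul_central {K : Type u} {L : Type v} [Group K] [Group L] {n : ℕ} (f : K →* L)
    (τ : Fin n → L) (c : Fin n → Subgroup.center L) (x : Coprod K (FreeGroup (Fin n))) :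
    ev f (fun k => τ k * c k) x =
      ev f τ x * ((∏ k, (c k) ^ (Multiplicative.toAdd (expo K k x)) : Subgroup.center L) : L) := by
  classical
  -- the hom `x ↦ ∏ c_k ^ e_k`
  let χ : Coprod K (FreeGroup (Fin n)) →* Subgroup.center L :=
    { toFun := fun x => ∏ k, (c k) ^ (Multiplicative.toAdd (expo K k x))
      map_one' := by simp
      map_mul' := by
        intro x y
        simp [zpow_add, Finset.prod_mul_distrib] }
  have hcomm : ∀ (z : Subgroup.center L) (y : L), (z : L) * y = y * z := by
    intro z y
    exact ((Subgroup.mem_center_iff.1 z.2) y).symm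
  let Φ : Coprod K (FreeGroup (Fin n)) →* L :=
    { toFun := fun x => ev f τ x * (χ x : L)
      map_one' := by simp
      map_mul' := by
        intro x y
        simp only [map_mul, Subgroup.coe_mul]
        rw [mul_assoc, mul_assoc]
        congr 1
        rw [← mul_assoc, ← mul_assoc, hcomm] }
  have : ev f (fun k => τ k * c k) = Φ := by
    apply Coprod.hom_ext
    · ext x
      simp [Φ, χ, expo]
    · ext k
      simp only [MonoidHom.comp_apply, ev_inr, FreeGroup.lift_apply_of, Φ, χ, MonoidHom.coe_mk,
        OneHom.coe_mk, expo, Coprod.lift_apply_inr]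
      congr 1
      rw [Finset.prod_eq_single k]
      · simp
      · intro b _ hb
        simp [Ne.symm hb]
      · simp
  exact DFunLike.congr_fun this x

lemma prod_zpow_sum {α : Type u} [CommGroup α] {ι : Type v} (s : Finset ι) (z : α) (f : ι → ℤ) :
    ∏ k ∈ s, z ^ (f k) = z ^ (∑ k ∈ s, f k) := by
  classical
  induction s using Finset.induction_on with
  | empty => simp
  | insert a s ha ih => rw [Finset.prod_insert ha, Finset.sum_insert ha, zpow_add, ih]

/-- every `p`-nonsingular system is solvable -/
def Solv (p : ℕ) (K : Type u) [Group K] : Prop :=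
  ∀ (n : ℕ) (w : Fin n → Coprod K (FreeGroup (Fin n))), ¬ (p : ℤ) ∣ (emat w).det →
    ∃ τ : Fin n → K, ∀ j, ev (MonoidHom.id K) τ (w j) = 1

lemma solv_of_center {p : ℕ} (hp : p.Prime) {K : Type u} [Group K] (m : ℕ)
    (hm : ∀ x : K, x ^ p ^ m = 1) (hK : Solv p (K ⧸ Subgroup.center K)) : Solv p K := by
  intro n w hw
  obtain ⟨τ', hτ'⟩ := hK n (fun j => Coprod.map (QuotientGroup.mk' _) (MonoidHom.id _) (w j))
    (by rw [emat_map]; exact hw)
  choose τ hτ using fun k => QuotientGroup.mk'_surjective (Subgroup.center K) (τ' k)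
  have hz : ∀ j, ev (MonoidHom.id K) τ (w j) ∈ Subgroup.center K := by
    intro j
    have h1 := hτ' j
    rw [ev_map] at h1
    rw [← QuotientGroup.eq_one_iff]
    change QuotientGroup.mk' (Subgroup.center K) _ = 1
    rw [ev_comp, show (fun k => (QuotientGroup.mk' (Subgroup.center K)) (τ k)) = τ' from
      funext hτ]
    exact h1
  let z : Fin n → Subgroup.center K := fun j => ⟨_, hz j⟩
  set M := emat w with hM
  -- inverse of det modulo p^m
  have hcop : IsCoprime M.det ((p : ℤ) ^ m) := by
    apply IsCoprime.pow_right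
    have hp' : Prime (p : ℤ) := Nat.prime_iff_prime_int.1 hp
    exact ((Prime.coprime_iff_not_dvd hp').2 hw).symm
  obtain ⟨a, b, hab⟩ := hcop
  let c : Fin n → Subgroup.center K := fun k => ∏ j, (z j) ^ (-(a * M.adjugate j k))
  refine ⟨fun k => τ k * c k, fun j => ?_⟩
  rw [ev_mul_central]
  have hkey : (∏ k, (c k) ^ (Multiplicative.toAdd (expo K k (w j))) : Subgroup.center K)
      = (z j)⁻¹ := by
    have e1 : ∀ k, (c k) ^ (Multiplicative.toAdd (expo K k (w j)))
        = ∏ j', (z j') ^ (-(a * M.adjugate j' k) * M k j) := by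
      intro k
      rw [← Finset.prod_zpow]
      refine Finset.prod_congr rfl fun j' _ => ?_
      rw [zpow_mul]
      rfl
    rw [Finset.prod_congr rfl fun k _ => e1 k, Finset.prod_comm]
    have e2 : ∀ j', (∏ k, (z j') ^ (-(a * M.adjugate j' k) * M k j))
        = (z j') ^ (-(a * (M.det * (1 : Matrix (Fin n) (Fin n) ℤ) j' j))) := by
      intro j'
      rw [prod_zpow_sum]
      congr 1
      have := congrFun (congrFun (Matrix.adjugate_mul M) j') j
      rw [Matrix.mul_apply, Matrix.smul_apply, smul_eq_mul] at this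
      rw [← this, Finset.mul_sum, ← Finset.sum_neg_distrib]
      refine Finset.sum_congr rfl fun k _ => by ring
    rw [Finset.prod_congr rfl fun j' _ => e2 j', Finset.prod_eq_single j]
    · rw [Matrix.one_apply_eq, mul_one]
      have h3 : -(a * M.det) = -1 + (p : ℤ) ^ m * b := by linarith [hab]
      rw [h3, zpow_add, zpow_mul, zpow_neg_one]
      have h4 : (z j) ^ ((p : ℤ) ^ m) = 1 := by
        have : ((p : ℤ) ^ m) = ((p ^ m : ℕ) : ℤ) := by push_cast; rfl
        rw [this, zpow_natCast]
        ext
        simpa using hm (z j)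
      rw [h4]; simp
    · intro b' _ hb'
      rw [Matrix.one_apply_ne hb']; simp
    · simp
  rw [hkey]
  simp [z]

lemma solv_subsingleton {p : ℕ} {K : Type u} [Group K] [Subsingleton K] : Solv p K := by
  intro n w _
  exact ⟨fun _ => 1, fun j => Subsingleton.elim _ _⟩

lemma solv_of_nilpotent {p : ℕ} (hp : p.Prime) (K : Type u) [Group K] [Group.IsNilpotent K]
    (m : ℕ) (hm : ∀ x : K, x ^ p ^ m = 1) : Solv p K := by
  revert hm
  refine Group.nilpotent_center_quotient_ind
    (P := fun K _ _ => (∀ x : K, x ^ p ^ m = 1) → Solv p K) K ?_ ?_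
  · intro G _ _ _
    exact solv_subsingleton
  · intro G _ _ ih hG
    refine solv_of_center hp m hG (ih ?_)
    intro x
    induction x using QuotientGroup.induction_on with
    | H x =>
      rw [← QuotientGroup.mk_pow, hG]; rfl

lemma solv_of_finite {p : ℕ} [hp : Fact p.Prime] (K : Type u) [Group K] [Finite K]
    (hK : IsPGroup p K) : Solv p K := by
  obtain ⟨m, hm⟩ := (IsPGroup.iff_card).1 hK
  have := hK.isNilpotent
  refine solv_of_nilpotent hp.out K m ?_
  intro x
  rw [← hm]
  exact pow_card_eq_one'

end Pool.Agent.H30.Kerv
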